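import Mathlib
import Pool.Agent.Y18.LC.Stm

/-!
# Project LT (helper848): Leopoldt's conjecture at 2 for composites `k F`

`k` of odd degree, without quadratic extensions unramified at all finite primes, only one prime
above 2; `F / ℚ` Galois of 2-power degree, every ramified prime has only one prime of `k` above it.
Exact statements of the jobs (as `Prop`s).
-/

set_option autoImplicit false

namespace Pool.Agent.N848.LT

open NumberField IsDedekindDomain Module Pool.Agent.H637R2.Leo Pool.Agent.Y18.LC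

/-- `K(√b) / K` is unramified at the finite prime `v`: up to squares `b` is a unit at `v` congruent
to `1` modulo `4` -/
def Un {K : Type} [Field K] [NumberField K] (v : HeightOneSpectrum (𝓞 K)) (b : K) : Prop :=
  ∃ y : K, v.valuation K (b * y ^ 2) = 1 ∧ v.valuation K (b * y ^ 2 - 1) ≤ v.valuation K 4

/-- the prime `v` of `K` lies above the prime `u` of `F` -/
def Ab {F K : Type} [Field F] [NumberField F] [Field K] [NumberField K] [Algebra F K]
    (v : HeightOneSpectrum (𝓞 K)) (u : HeightOneSpectrum (𝓞 F)) : Prop :=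
  v.asIdeal.comap (algebraMap (𝓞 F) (𝓞 K)) = u.asIdeal

/-- at most one prime of `K` lies above the prime `u` of `F` -/
def NS {F : Type} (K : Type) [Field F] [NumberField F] [Field K] [NumberField K] [Algebra F K]
    (u : HeightOneSpectrum (𝓞 F)) : Prop :=
  ∀ v v' : HeightOneSpectrum (𝓞 K), Ab v u → Ab v' u → v = v'

/-- at most one prime of `k` contains the prime number `q` -/
def NSQ (k : Type) [Field k] [NumberField k] (q : ℕ) : Prop :=
  ∀ v v' : HeightOneSpectrum (𝓞 k), (q : 𝓞 k) ∈ v.asIdeal → (q : 𝓞 k) ∈ v'.asIdeal → v = v'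

/-- elements of `K` which are unramified everywhere and of square norm are squares -/
def PP (F K : Type) [Field F] [NumberField F] [Field K] [NumberField K] [Algebra F K] : Prop :=
  ∀ b : K, b ≠ 0 → (∀ v : HeightOneSpectrum (𝓞 K), Un v b) → IsSquare (Algebra.norm F b) →
    IsSquare b

/-- `k` has no quadratic extension which is unramified at all finite primes -/
def NoUnr (k : Type) [Field k] [NumberField k] : Prop :=
  ∀ b : k, b ≠ 0 → (∀ v : HeightOneSpectrum (𝓞 k), Un v b) → IsSquare b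

/-- LT/APX: one `y` for all primes above `u` -/
def S_APX : Prop := ∀ (F K : Type) [Field F] [NumberField F] [Field K] [NumberField K] [Algebra F K]
  (u : HeightOneSpectrum (𝓞 F)) (x : K),
  (∀ v : HeightOneSpectrum (𝓞 K), Ab v u → Un v x) →
  ∃ y : K, ∀ v : HeightOneSpectrum (𝓞 K), Ab v u →
    v.valuation K (x * y ^ 2) = 1 ∧ v.valuation K (x * y ^ 2 - 1) ≤ v.valuation K 4

/-- LT/INT: norms and traces of elements integral at all primes above `u` -/
def S_INT : Prop := ∀ (F K : Type) [Field F] [NumberField F] [Field K] [NumberField K] [Algebra F K]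
  (u : HeightOneSpectrum (𝓞 F)) (t : K),
  (∀ v : HeightOneSpectrum (𝓞 K), Ab v u → v.valuation K t ≤ 1) →
  u.valuation F (Algebra.norm F t) ≤ 1 ∧ u.valuation F (Algebra.trace F K t) ≤ 1 ∧
  ∀ c : F, u.valuation F c ≤ 1 → ∃ r : F, u.valuation F r ≤ 1 ∧
    Algebra.norm F (1 + algebraMap F K c * t) = 1 + c * r

/-- LT/UP: going up -/
def S_UP : Prop := ∀ (F K : Type) [Field F] [NumberField F] [Field K] [NumberField K] [Algebra F K]
  (u : HeightOneSpectrum (𝓞 F)) (v : HeightOneSpectrum (𝓞 K)), Ab v u →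
  (∀ x y : F, u.valuation F x ≤ u.valuation F y →
    v.valuation K (algebraMap F K x) ≤ v.valuation K (algebraMap F K y)) ∧
  (∀ x : F, u.valuation F x = 1 ↔ v.valuation K (algebraMap F K x) = 1) ∧
  (∀ x : F, u.valuation F x ≤ 1 ↔ v.valuation K (algebraMap F K x) ≤ 1) ∧
  ∀ x : F, Un u x → Un v (algebraMap F K x)

/-- LT/UN: norms of unramified elements -/
def S_UN : Prop := ∀ (F K : Type) [Field F] [NumberField F] [Field K] [NumberField K] [Algebra F K]
  (u : HeightOneSpectrum (𝓞 F)) (x : K),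
  (∀ v : HeightOneSpectrum (𝓞 K), Ab v u → Un v x) → x ≠ 0 → Un u (Algebra.norm F x)

/-- LT/VF: descent in a quadratic extension -/
def S_VF : Prop := ∀ (K K' : Type) [Field K] [NumberField K] [Field K'] [NumberField K']
  [Algebra K K'] (m : K) (s : K'), s ^ 2 = algebraMap K K' m → ¬ IsSquare m → finrank K K' = 2 →
  ∀ (v : HeightOneSpectrum (𝓞 K)) (b : K),
    (∀ w : HeightOneSpectrum (𝓞 K'), Ab w v → Un w (algebraMap K K' b)) →
    Un v b ∨ Un v (b * m)

/-- LT/HIL: Hilbert 90 -/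
def S_HIL : Prop := ∀ (K K' : Type) [Field K] [CharZero K] [Field K'] [Algebra K K']
  (m : K) (s : K'), s ^ 2 = algebraMap K K' m → ¬ IsSquare m → finrank K K' = 2 →
  ∀ (f : K') (c : K), f ≠ 0 → Algebra.norm K f = c ^ 2 →
    ∃ (b : K) (h : K'), h ≠ 0 ∧ f = algebraMap K K' b * h ^ 2

/-- LT/NRM: norms in a square of fields -/
def S_NRM : Prop := ∀ (F F' K K' : Type) [Field F] [NumberField F] [Field F'] [NumberField F']
  [Field K] [NumberField K] [Field K'] [NumberField K'] [Algebra F F'] [Algebra F K]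
  [Algebra F K'] [Algebra F' K'] [Algebra K K'] [IsScalarTower F F' K'] [IsScalarTower F K K']
  (m : F) (s : F'), s ^ 2 = algebraMap F F' m → ¬ IsSquare m → finrank F F' = 2 →
  finrank K K' = 2 → Odd (finrank F K) →
  finrank F' K' = finrank F K ∧ ¬ IsSquare (algebraMap F K m) ∧
  (∀ b : K, Algebra.norm F' (algebraMap K K' b) = algebraMap F F' (Algebra.norm F b)) ∧
  (∀ x : F, IsSquare (algebraMap F F' x) → IsSquare x ∨ IsSquare (x * m)) ∧
  (∀ f : K', Algebra.norm F (Algebra.norm F' f) = Algebra.norm F (Algebra.norm K f))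

/-- LT/STEP: the property `PP` goes up -/
def S_STEP : Prop := ∀ (F F' K K' : Type) [Field F] [NumberField F] [Field F'] [NumberField F']
  [Field K] [NumberField K] [Field K'] [NumberField K'] [Algebra F F'] [Algebra F K]
  [Algebra F K'] [Algebra F' K'] [Algebra K K'] [IsScalarTower F F' K'] [IsScalarTower F K K']
  (m : F) (s : F'), s ^ 2 = algebraMap F F' m → ¬ IsSquare m → finrank F F' = 2 →
  finrank K K' = 2 → Odd (finrank F K) →
  (∀ u : HeightOneSpectrum (𝓞 F), Un u m ∨ NS K u) → PP F K → PP F' K'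

/-- LT/UNQ: quadratic extensions unramified above `q` -/
def S_UNQ : Prop := ∀ (F F' : Type) [Field F] [NumberField F] [Field F'] [NumberField F']
  [Algebra F F'] (m : F) (s : F'), s ^ 2 = algebraMap F F' m → m ≠ 0 →
  ∀ q : ℕ, q.Prime → Unram F' q → ∀ u : HeightOneSpectrum (𝓞 F), (q : 𝓞 F) ∈ u.asIdeal → Un u m

/-- LT/NSG: nonsplit primes in the composite (from `Pool.Agent.Y758.LC.nsb`) -/
def S_NSG : Prop := ∀ (r : ℕ) (k F K : Type) [Field k] [NumberField k] [Field F] [NumberField F]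
  [Field K] [NumberField K] [Algebra k K] [Algebra F K], IsGalois ℚ F → finrank ℚ F = 2 ^ r →
  IntermediateField.adjoin k (Set.range (algebraMap F K)) = ⊤ → Odd (finrank ℚ k) →
  ∀ q : ℕ, q.Prime → NSQ k q → ∀ u : HeightOneSpectrum (𝓞 F), (q : 𝓞 F) ∈ u.asIdeal → NS K u

/-- LT/DEG: degrees of the composite -/
def S_DEG : Prop := ∀ (r : ℕ) (k F K : Type) [Field k] [NumberField k] [Field F] [NumberField F]
  [Field K] [NumberField K] [Algebra k K] [Algebra F K], IsGalois ℚ F → finrank ℚ F = 2 ^ r →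
  IntermediateField.adjoin k (Set.range (algebraMap F K)) = ⊤ → Odd (finrank ℚ k) →
  finrank F K = finrank ℚ k ∧ finrank k K = 2 ^ r

/-- LT/IND: the property `PP` for composites -/
def S_IND : Prop := ∀ (r : ℕ) (k F K : Type) [Field k] [NumberField k] [Field F] [NumberField F]
  [Field K] [NumberField K] [Algebra k K] [Algebra F K], IsGalois ℚ F → finrank ℚ F = 2 ^ r →
  IntermediateField.adjoin k (Set.range (algebraMap F K)) = ⊤ → Odd (finrank ℚ k) →
  (∀ q : ℕ, q.Prime → Unram F q ∨ NSQ k q) → NoUnr k → PP F K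

/-- LT/ROOT: relative units close to `1` are squares of relative units close to `1` -/
def S_ROOT : Prop := ∀ (F K : Type) [Field F] [NumberField F] [Field K] [NumberField K]
  [Algebra F K], Odd (finrank F K) →
  (∀ u : HeightOneSpectrum (𝓞 F), (2 : 𝓞 F) ∈ u.asIdeal → NS K u) → PP F K →
  ∀ M : ℕ, 4 ≤ M → ∀ z : (𝓞 K)ˣ, Algebra.norm F (((z : 𝓞 K) : K)) = 1 →
    (2 : 𝓞 K) ^ M ∣ (z : 𝓞 K) - 1 →
    ∃ w : (𝓞 K)ˣ, Algebra.norm F (((w : 𝓞 K) : K)) = 1 ∧ w ^ 2 = z ∧
      (2 : 𝓞 K) ^ (M - 1) ∣ (w : 𝓞 K) - 1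

/-- LT/LEO -/
def S_LEO : Prop := ∀ (F K : Type) [Field F] [NumberField F] [Field K] [NumberField K]
  [Algebra F K], Odd (finrank F K) →
  (∀ u : HeightOneSpectrum (𝓞 F), (2 : 𝓞 F) ∈ u.asIdeal → NS K u) → PP F K →
  Top F 2 → Top K 2

/-- LT/TAT: Leopoldt's conjecture at 2 implies that units close to `1` are `2 ^ n`-th powers -/
def S_TAT : Prop := ∀ (E : Type) [Field E] [NumberField E], Leopoldt E 2 → Top E 2

/-- LT/EXR: the cubic field of discriminant 148 -/
def S_EXR : Prop := (∃ (k : Type) (_ : Field k) (_ : NumberField k) (α : k), finrank ℚ k = 3 ∧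
    α ^ 3 - α ^ 2 - 3 * α + 1 = 0) ∧
  ∀ (k : Type) [Field k] [NumberField k] (α : k), finrank ℚ k = 3 →
    α ^ 3 - α ^ 2 - 3 * α + 1 = 0 → IsTotallyReal k ∧ ¬ IsGalois ℚ k

/-- LT/EXP: its class number is one, and there is one prime above 2 -/
def S_EXP : Prop := ∀ (k : Type) [Field k] [NumberField k] (α : k), finrank ℚ k = 3 →
  α ^ 3 - α ^ 2 - 3 * α + 1 = 0 → IsPrincipalIdealRing (𝓞 k) ∧ NSQ k 2

/-- LT/EXN: seven classes of units are ramified at 2 -/
def S_EXN : Prop := ∀ (k : Type) [Field k] [NumberField k] (α : k), finrank ℚ k = 3 →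
  α ^ 3 - α ^ 2 - 3 * α + 1 = 0 → ∀ a b c : ℕ, a < 2 → b < 2 → c < 2 →
  ¬ (a = 0 ∧ b = 0 ∧ c = 0) → ∀ v : HeightOneSpectrum (𝓞 k), (2 : 𝓞 k) ∈ v.asIdeal →
    ¬ Un v ((-1) ^ a * α ^ b * (α - 2) ^ c)

/-- LT/EXU: units modulo squares -/
def S_EXU : Prop := ∀ (k : Type) [Field k] [NumberField k], finrank ℚ k = 3 → IsTotallyReal k →
  ∀ e : Fin 3 → (𝓞 k)ˣ, (∀ a : Fin 3 → Fin 2, a ≠ 0 → ¬ IsSquare (∏ i, e i ^ (a i : ℕ))) →
  ∀ η : (𝓞 k)ˣ, ∃ (a : Fin 3 → Fin 2) (w : (𝓞 k)ˣ), η = (∏ i, e i ^ (a i : ℕ)) * w ^ 2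

/-- LT/EXE -/
def S_EXE : Prop := ∀ (k : Type) [Field k] [NumberField k] (α : k), finrank ℚ k = 3 →
  α ^ 3 - α ^ 2 - 3 * α + 1 = 0 → NoUnr k

end Pool.Agent.N848.LT
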