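import Mathlib
import Pool.Agent.Y18.LC.Omega

/-!
# Project LT (helper848): explicit composites
-/

set_option autoImplicit false

namespace Pool.Agent.N848.LT

open NumberField IsDedekindDomain Module Pool.Agent.Y18.LC

/-- LT/SQT: the field generated by all square roots of the members of `T` -/
def S_SQT : Prop := ∀ (Ω : Type) [Field Ω] [CharZero Ω] (T : Set ℤ) (A : IntermediateField ℚ Ω),
  A = IntermediateField.adjoin ℚ {s : Ω | ∃ t ∈ T, s ^ 2 = (t : Ω)} →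
  EA 2 A ∧ ∀ q : ℕ, q.Prime → (∀ t ∈ T, ¬ (q : ℤ) ∣ 2 * t) → (Ideal.span {(q : 𝓞 A)}).IsRadical

/-- LT/MSQ: the finite case -/
def S_MSQ : Prop := ∀ (Ω : Type) [Field Ω] [CharZero Ω] (S : Finset Ω),
  (∀ s ∈ S, ∃ t : ℤ, s ^ 2 = (t : Ω)) →
  EA 2 (IntermediateField.adjoin ℚ (S : Set Ω)) ∧
  ∀ q : ℕ, q.Prime → (∀ s ∈ S, ∃ t : ℤ, s ^ 2 = (t : Ω) ∧ ¬ (q : ℤ) ∣ 2 * t) →
    (Ideal.span {(q : 𝓞 (IntermediateField.adjoin ℚ (S : Set Ω)))}).IsRadical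

/-- LT/QDR: quadratic fields -/
def S_QDR : Prop := ∀ (Ω : Type) [Field Ω] [CharZero Ω] (s : Ω) (t : ℤ), s ^ 2 = (t : Ω) →
  EA 2 (IntermediateField.adjoin ℚ {s}) ∧ FiniteDimensional ℚ (IntermediateField.adjoin ℚ {s}) ∧
  ∀ q : ℕ, q.Prime → ¬ (q : ℤ) ∣ 2 * t →
    (Ideal.span {(q : 𝓞 (IntermediateField.adjoin ℚ {s}))}).IsRadical

end Pool.Agent.N848.LT
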