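import Mathlib
import Pool.Agent.N848.LT.Stm2
import Pool.Agent.N667.LT.QDR
import Pool.Agent.N34.LT.MSQ
import Pool.Agent.N402.LT.SQT

/-!
# Project LT: fields generated by square roots
-/

set_option autoImplicit false

namespace Pool.Agent.N848.LT

theorem sqt : S_SQT := Pool.Agent.N402.LT.t_SQT (Pool.Agent.N34.LT.t_MSQ Pool.Agent.N667.LT.t_QDR)

end Pool.Agent.N848.LT
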