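import Mathlib
import Pool.Agent.N848.LT.Stm
import Pool.Agent.N186.LT.APX
import Pool.Agent.N356.LT.Int
import Pool.Agent.N413.LT.UP
import Pool.Agent.N850.LT.UN
import Pool.Agent.N288.LT.VF
import Pool.Agent.N280.LT.HIL
import Pool.Agent.N281.LT.NRM
import Pool.Agent.N720.LT.STEP
import Pool.Agent.N592.LT.UNQ
import Pool.Agent.N971.LT.NSG
import Pool.Agent.N700.LT.DEG
import Pool.Agent.N899.LT.IND
import Pool.Agent.N966.LT.ROOT
import Pool.Agent.N458.LT.LEO
import Pool.Agent.N371.LT.TAT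
import Pool.Agent.N706.LT.EXR
import Pool.Agent.N340.LT.EXP
import Pool.Agent.N667.LT.EXN
import Pool.Agent.N327.LT.EXU
import Pool.Agent.N942.LT.EXE

/-!
# Project LT: all parts together
-/

set_option autoImplicit false

namespace Pool.Agent.N848.LT

theorem apx : S_APX := Pool.Agent.N186.LT.APX.t_APX
theorem int : S_INT := Pool.Agent.N356.LT.t_INT
theorem up : S_UP := Pool.Agent.N413.LTUP.t_UP
theorem un : S_UN := Pool.Agent.N850.LT.t_UN apx int
theorem vf : S_VF := Pool.Agent.N288.LT.t_VF apx int up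
theorem hil : S_HIL := Pool.Agent.N280.LT.t_HIL
theorem nrm : S_NRM := Pool.Agent.N281.LT.NRM.t_NRM
theorem step : S_STEP := Pool.Agent.N720.LT.t_STEP un up vf hil nrm
theorem unq : S_UNQ := Pool.Agent.N592.LT.UNQ.t_UNQ
theorem nsg : S_NSG := Pool.Agent.N971.LT.t_NSG
theorem deg : S_DEG := Pool.Agent.N700.LT.t_DEG
theorem ind : S_IND := Pool.Agent.N899.LT.t_IND step unq nsg deg
theorem root : S_ROOT := Pool.Agent.N966.LT.t_ROOT int
theorem leo : S_LEO := Pool.Agent.N458.LT.LEO.t_LEO int root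
theorem tat : S_TAT := Pool.Agent.N371.LT.t_TAT
theorem exr : S_EXR := Pool.Agent.N706.LT.t_EXR
theorem exP : S_EXP := Pool.Agent.N340.LT.EXP.t_EXP exr
theorem exn : S_EXN := Pool.Agent.N667.LT.t_EXN
theorem exu : S_EXU := Pool.Agent.N327.LT.t_EXU
theorem exe : S_EXE := Pool.Agent.N942.LT.EXE.t_EXE exr exP exn exu

end Pool.Agent.N848.LT
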