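import Mathlib
import Pool.Agent.N848.LT.Stm
import Pool.Agent.Y18.LC.Tower
import Pool.Agent.Y18.LC.Stm3
import Pool.Agent.Y944.LC.BRU
import Pool.Agent.Y944.LC.TB

/-!
# Project LT: the main theorem for subfields of a large field
-/

set_option autoImplicit false

namespace Pool.Agent.N848.LT

open NumberField IsDedekindDomain Module Pool.Agent.H637R2.Leo Pool.Agent.Y18.LC

/-- abstract form -/
theorem main_abs (hIND : S_IND) (hLEO : S_LEO) (hNSG : S_NSG) (hDEG : S_DEG) (r : ℕ)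
    (k F K : Type) [Field k] [NumberField k] [Field F] [NumberField F]
    [Field K] [NumberField K] [Algebra k K] [Algebra F K] (hG : IsGalois ℚ F)
    (hF : finrank ℚ F = 2 ^ r)
    (hadj : IntermediateField.adjoin k (Set.range (algebraMap F K)) = ⊤)
    (hk : Odd (finrank ℚ k)) (h2 : NSQ k 2)
    (hq : ∀ q : ℕ, q.Prime → Unram F q ∨ NSQ k q) (hNo : NoUnr k) (hT : Top F 2) : Top K 2 := by
  obtain ⟨hd, -⟩ := hDEG r k F K hG hF hadj hk
  refine hLEO F K (by rw [hd]; exact hk) ?_ (hIND r k F K hG hF hadj hk hq hNo) hT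
  intro u hu
  exact hNSG r k F K hG hF hadj hk 2 Nat.prime_two h2 u (by exact_mod_cast hu)

lemma nsq_of {k : Type} [Field k] [NumberField k] {q : ℕ} (h : NonS k q) : NSQ k q := by
  intro v v' hv hv'
  exact HeightOneSpectrum.ext (h _ _ v.isPrime v'.isPrime hv hv')

lemma nonS_of {k : Type} [Field k] [NumberField k] {q : ℕ} (hq : q.Prime) (h : NSQ k q) :
    NonS k q := by
  intro P P' hP hP' hqP hqP'
  have hne : (q : 𝓞 k) ≠ 0 := Nat.cast_ne_zero.2 hq.ne_zero
  have h1 : P ≠ ⊥ := fun h0 => hne (by rw [h0] at hqP; exact hqP)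
  have h2 : P' ≠ ⊥ := fun h0 => hne (by rw [h0] at hqP'; exact hqP')
  have h3 := h ⟨P, hP, h1⟩ ⟨P', hP', h2⟩ hqP hqP'
  exact congrArg HeightOneSpectrum.asIdeal h3

variable {Ω : Type} [Field Ω] [CharZero Ω]

/-- the hypotheses on the base field -/
def Base (k : IntermediateField ℚ Ω) : Prop :=
  ∃ _ : NumberField k, Odd (finrank ℚ k) ∧ NonS k 2 ∧ NoUnr k

theorem leo_sup (hIND : S_IND) (hLEO : S_LEO) (hNSG : S_NSG) (hDEG : S_DEG) (hTAT : S_TAT)
    (k F : IntermediateField ℚ Ω) (hk : Base k) (hG : IsGalois ℚ F) (r : ℕ)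
    (hF : finrank ℚ F = 2 ^ r)
    (hq : ∀ q : ℕ, q.Prime → (Ideal.span {(q : 𝓞 F)}).IsRadical ∨ NonS k q)
    (hL : LeoF F 2) : LeoF (k ⊔ F) 2 := by
  obtain ⟨hnk, hodd, h2, hNo⟩ := hk
  obtain ⟨hnF, hLF⟩ := hL
  have hfk : FiniteDimensional ℚ k := by
    apply FiniteDimensional.of_finrank_pos
    exact hodd.pos
  have hfF : FiniteDimensional ℚ F := by
    apply FiniteDimensional.of_finrank_pos
    rw [hF]
    positivity
  have hnK : NumberField ↥(k ⊔ F) := nf_of _ inferInstance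
  refine ⟨hnK, Pool.Agent.Y944.LC.tb ↥(k ⊔ F) 2 ?_⟩
  letI algk : Algebra k ↥(k ⊔ F) :=
    (IntermediateField.inclusion (le_sup_left : k ≤ k ⊔ F)).toRingHom.toAlgebra
  letI algF : Algebra F ↥(k ⊔ F) :=
    (IntermediateField.inclusion (le_sup_right : F ≤ k ⊔ F)).toRingHom.toAlgebra
  refine main_abs hIND hLEO hNSG hDEG r k F ↥(k ⊔ F) ?_ ?_ ?_ ?_ (nsq_of h2)
    (fun q hqp => (hq q hqp).imp id nsq_of) hNo (hTAT F hLF)
  · exact IsGalois.of_algEquiv (ratE (RingEquiv.refl F))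
  · rw [← finrank_congr (RingEquiv.refl F)]
    exact hF
  · set ι : ↥(k ⊔ F) →+* Ω := algebraMap _ Ω with hι
    have h3 := adjoin_top' ι k F (fun x hx => ⟨⟨x, hx⟩, rfl⟩) (fun y => y.2) k
      (fun x hx => ⟨⟨x, hx⟩, rfl⟩)
    have h4 : (cm ι F : Set ↥(k ⊔ F)) = Set.range (algebraMap F ↥(k ⊔ F)) := by
      ext y
      constructor
      · intro hy
        exact ⟨⟨ι y, hy⟩, Subtype.ext rfl⟩
      · rintro ⟨z, rfl⟩
        exact z.2
    rw [h4] at h3
    exact h3
  · rw [← finrank_congr (RingEquiv.refl k)]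
    exact hodd

/-- abelian extensions, all of whose finite subextensions have 2-power degree -/
def Ab2 (A : IntermediateField ℚ Ω) : Prop :=
  IsGalois ℚ A ∧ (∀ g h : A ≃ₐ[ℚ] A, g * h = h * g) ∧
    ∀ F : IntermediateField ℚ Ω, F ≤ A → FiniteDimensional ℚ F → ∃ r : ℕ, finrank ℚ F = 2 ^ r

lemma ab_sub {A L : IntermediateField ℚ Ω} (h : L ≤ A) (h1 : IsGalois ℚ A)
    (h2 : ∀ g h : A ≃ₐ[ℚ] A, g * h = h * g) :
    IsGalois ℚ L ∧ ∀ g h : L ≃ₐ[ℚ] L, g * h = h * g := by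
  have hab : IsAbelianGalois ℚ A :=
    { toIsGalois := h1
      toIsMulCommutative := ⟨⟨h2⟩⟩ }
  have hab2 : IsAbelianGalois ℚ L :=
    @IsAbelianGalois.of_algHom ℚ L A _ _ _ _ _ (IntermediateField.inclusion h) hab
  exact ⟨hab2.toIsGalois, fun g h => mul_comm' g h⟩

/-- Brumer's theorem inside `Ω` -/
lemma leo_abelian (F : IntermediateField ℚ Ω) (hf : FiniteDimensional ℚ F) (h1 : IsGalois ℚ F)
    (h2 : ∀ g h : F ≃ₐ[ℚ] F, g * h = h * g) (p : ℕ) [Fact p.Prime] : LeoF F p := by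
  have hnf : NumberField F := nf_of F hf
  refine ⟨hnf, Pool.Agent.Y944.LC.bru F p ?_ ?_⟩
  · exact IsGalois.of_algEquiv (ratE (RingEquiv.refl F))
  · intro g h
    apply (AlgEquiv.autCongr (ratE (RingEquiv.refl F))).symm.injective
    rw [map_mul, map_mul, h2]

/-- finite subfields of composites -/
lemma le_sup_finite (k A L : IntermediateField ℚ Ω) (hA : Algebra.IsAlgebraic ℚ A)
    (hL : FiniteDimensional ℚ L) (h : L ≤ k ⊔ A) :
    ∃ F : IntermediateField ℚ Ω, F ≤ A ∧ FiniteDimensional ℚ F ∧ L ≤ k ⊔ F := by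
  have hnf : NumberField L := nf_of L hL
  obtain ⟨α, hα⟩ := Field.exists_primitive_element ℚ L
  have h1 : (α : Ω) ∈ k ⊔ A := h α.2
  have h2 : k ⊔ A = IntermediateField.adjoin ℚ ((k : Set Ω) ∪ (A : Set Ω)) := by
    apply le_antisymm
    · exact sup_le (fun x hx => IntermediateField.subset_adjoin _ _ (Or.inl hx))
        (fun x hx => IntermediateField.subset_adjoin _ _ (Or.inr hx))
    · rw [IntermediateField.adjoin_le_iff]
      rintro x (hx | hx)
      · exact (le_sup_left : k ≤ k ⊔ A) hx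
      · exact (le_sup_right : A ≤ k ⊔ A) hx
  rw [h2] at h1
  obtain ⟨T, hT, hαT⟩ := IntermediateField.exists_finset_of_mem_adjoin h1
  classical
  refine ⟨IntermediateField.adjoin ℚ ((T : Set Ω) ∩ A), ?_, ?_, ?_⟩
  · rw [IntermediateField.adjoin_le_iff]
    exact Set.inter_subset_right
  · haveI : Finite ↑((T : Set Ω) ∩ A) := (T.finite_toSet.inter_of_left _).to_subtype
    apply IntermediateField.finiteDimensional_adjoin
    intro x hx
    have h6 : IsIntegral ℚ (⟨x, hx.2⟩ : A) := (hA.isAlgebraic _).isIntegral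
    exact h6.map A.val
  · set F := IntermediateField.adjoin ℚ ((T : Set Ω) ∩ A) with hF
    have h3 : (α : Ω) ∈ k ⊔ F := by
      have h4 : IntermediateField.adjoin ℚ (T : Set Ω) ≤ k ⊔ F := by
        rw [IntermediateField.adjoin_le_iff]
        intro x hx
        rcases hT hx with h5 | h5
        · exact (le_sup_left : k ≤ k ⊔ F) h5
        · exact (le_sup_right : F ≤ k ⊔ F) (IntermediateField.subset_adjoin _ _ ⟨hx, h5⟩)
      exact h4 hαT
    intro x hx
    have h4 : IntermediateField.adjoin ℚ {α} ≤ cm (algebraMap L Ω) (k ⊔ F) := by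
      rw [IntermediateField.adjoin_simple_le_iff]
      exact h3
    have h5 : (⟨x, hx⟩ : L) ∈ IntermediateField.adjoin ℚ {α} := by
      rw [hα]
      trivial
    exact h4 h5

/-- infinite abelian extensions -/
theorem leo_abelian_sup (hIND : S_IND) (hLEO : S_LEO) (hNSG : S_NSG) (hDEG : S_DEG)
    (hTAT : S_TAT) (hDSC : DSC)
    (k A : IntermediateField ℚ Ω) (hk : Base k) (hA : Ab2 A)
    (hq : ∀ q : ℕ, q.Prime → (Ideal.span {(q : 𝓞 A)}).IsRadical ∨ NonS k q)
    (L : IntermediateField ℚ Ω) (hL : L ≤ k ⊔ A) (hf : FiniteDimensional ℚ L) : LeoF L 2 := by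
  have halg : Algebra.IsAlgebraic ℚ A := by
    haveI : Normal ℚ A := hA.1.to_normal
    infer_instance
  obtain ⟨F, hFA, hFf, hLF⟩ := le_sup_finite k A L halg hf hL
  obtain ⟨hG, hc⟩ := ab_sub hFA hA.1 hA.2.1
  obtain ⟨r, hr⟩ := hA.2.2 F hFA hFf
  have h1 : LeoF (k ⊔ F) 2 := leo_sup hIND hLEO hNSG hDEG hTAT k F hk hG r hr (fun q hqp => by
    rcases hq q hqp with h | h
    · exact Or.inl (unram_of_hom (IntermediateField.inclusion hFA).toRingHom hqp.ne_zero h)
    · exact Or.inr h) (leo_abelian F hFf hG hc 2)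
  exact LeoF_mono hDSC hLF hf h1

end Pool.Agent.N848.LT
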