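import Mathlib
import Pool.Agent.N848.LT.Main
import Pool.Agent.N848.LT.Leaves
import Pool.Agent.N848.LT.Stm2
import Pool.Agent.Y758.LC.DSC
import Pool.Agent.Y419.LC.PRD
import Pool.Agent.Y287.LC.CHB

/-!
# Project LT: final statements for subfields of a large field
-/

set_option autoImplicit false

namespace Pool.Agent.N848.LT

open NumberField IsDedekindDomain Module Pool.Agent.H637R2.Leo Pool.Agent.Y18.LC

variable {Ω : Type} [Field Ω] [CharZero Ω]

/-- the theorem for finite Galois extensions -/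
theorem fin1 (k F : IntermediateField ℚ Ω) (hk : Base k) (hG : IsGalois ℚ F) (r : ℕ)
    (hF : finrank ℚ F = 2 ^ r)
    (hq : ∀ q : ℕ, q.Prime → (Ideal.span {(q : 𝓞 F)}).IsRadical ∨ NonS k q) :
    LeoF (k ⊔ F) 2 ↔ LeoF F 2 := by
  constructor
  · intro h
    have hfF : FiniteDimensional ℚ F := by
      apply FiniteDimensional.of_finrank_pos
      rw [hF]
      positivity
    exact LeoF_mono Pool.Agent.Y758.LC.dsc le_sup_right hfF h
  · exact leo_sup ind leo nsg deg tat k F hk hG r hF hq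

/-- the theorem for abelian extensions -/
theorem fin2 (k A : IntermediateField ℚ Ω) (hk : Base k) (hA : Ab2 A)
    (hq : ∀ q : ℕ, q.Prime → (Ideal.span {(q : 𝓞 A)}).IsRadical ∨ NonS k q)
    (L : IntermediateField ℚ Ω) (hL : L ≤ k ⊔ A) (hf : FiniteDimensional ℚ L) : LeoF L 2 :=
  leo_abelian_sup ind leo nsg deg tat Pool.Agent.Y758.LC.dsc k A hk hA hq L hL hf

/-- the theorem for square roots of integers -/
theorem fin3 (hSQT : S_SQT) (k : IntermediateField ℚ Ω) (hk : Base k)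
    (L : IntermediateField ℚ Ω)
    (hL : L ≤ k ⊔ IntermediateField.adjoin ℚ {s : Ω | ∃ t : ℤ,
      (∀ q : ℕ, q.Prime → (q : ℤ) ∣ t → NonS k q) ∧ s ^ 2 = (t : Ω)})
    (hf : FiniteDimensional ℚ L) : LeoF L 2 := by
  set T : Set ℤ := {t : ℤ | ∀ q : ℕ, q.Prime → (q : ℤ) ∣ t → NonS k q} with hT
  set A := IntermediateField.adjoin ℚ {s : Ω | ∃ t ∈ T, s ^ 2 = (t : Ω)} with hA
  obtain ⟨h1, h2⟩ := hSQT Ω T A hA
  refine fin2 k A hk ⟨h1.1, h1.2.1, fun F hF hFf => EA_finrank (EA_sub hF h1) hFf⟩ ?_ L hL hf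
  intro q hq
  by_cases h : ∀ t ∈ T, ¬ (q : ℤ) ∣ 2 * t
  · exact Or.inl (h2 q hq h)
  · push Not at h
    obtain ⟨t, ht, hqt⟩ := h
    right
    rcases (Nat.prime_iff_prime_int.1 hq).dvd_or_dvd hqt with h3 | h3
    · have h4 : q = 2 := (Nat.prime_dvd_prime_iff_eq hq Nat.prime_two).1 (by exact_mod_cast h3)
      rw [h4]
      exact hk.choose_spec.2.1
    · exact ht q hq h3

/-- infinitely many nonsplit primes -/
theorem fin4 (k : IntermediateField ℚ Ω) (hk : (finrank ℚ k).Prime) :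
    {q : ℕ | q.Prime ∧ NonS k q}.Infinite := by
  have hfk : FiniteDimensional ℚ k := by
    apply FiniteDimensional.of_finrank_pos
    exact hk.pos
  have hnf : NumberField k := nf_of k hfk
  have hk' : (finrank ℚ (k : Type)).Prime := by
    rw [← finrank_congr (RingEquiv.refl k)]
    exact hk
  obtain ⟨g, hg⟩ := Pool.Agent.Y419.LC.prd k hk'
  have h1 := Pool.Agent.Y287.LC.chb k 2 Nat.prime_two g hg (fun ζ hζ => by
    have hζ' : (ζ - 1) * (ζ + 1) = 0 := by linear_combination hζ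
    rcases mul_eq_zero.1 hζ' with h | h
    · rw [sub_eq_zero.1 h, map_one]
    · rw [eq_neg_of_add_eq_zero_left h, map_neg, map_one])
  exact h1.mono (fun q hq => ⟨hq.1, hq.2.2⟩)

/-- the cubic field of discriminant 148 -/
theorem fin5 (α : Ω) (hα : α ^ 3 - α ^ 2 - 3 * α + 1 = 0) :
    Base (IntermediateField.adjoin ℚ {α}) ∧ finrank ℚ (IntermediateField.adjoin ℚ {α}) = 3 ∧
      IsTotallyReal (IntermediateField.adjoin ℚ {α}) ∧
      ¬ IsGalois ℚ (IntermediateField.adjoin ℚ {α}) := by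
  have h0 : finrank ℚ (IntermediateField.adjoin ℚ {α}) = 3 := by
    have hirr := Pool.Agent.N706.LT.irr
    have hm : (Polynomial.X ^ 3 - Polynomial.X ^ 2 - 3 * Polynomial.X + 1 :
        Polynomial ℚ).Monic := by
      monicity!
    have h1 := minpoly.eq_of_irreducible_of_monic hirr (x := α) (by
      simpa [Polynomial.aeval_def] using hα) hm
    have h2 : IsIntegral ℚ α := ⟨_, hm, by simpa [Polynomial.aeval_def] using hα⟩
    rw [IntermediateField.adjoin.finrank h2, ← h1]
    compute_degree!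
  have hfk : FiniteDimensional ℚ (IntermediateField.adjoin ℚ {α}) := by
    apply FiniteDimensional.of_finrank_pos
    rw [h0]
    norm_num
  have hnf : NumberField (IntermediateField.adjoin ℚ {α}) := nf_of _ hfk
  have h3 : finrank ℚ ((IntermediateField.adjoin ℚ {α} : IntermediateField ℚ Ω) : Type) = 3 := by
    rw [← finrank_congr (RingEquiv.refl (IntermediateField.adjoin ℚ {α}))]
    exact h0
  set a : IntermediateField.adjoin ℚ {α} := ⟨α, IntermediateField.mem_adjoin_simple_self ℚ α⟩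
    with ha
  have ha3 : a ^ 3 - a ^ 2 - 3 * a + 1 = 0 := by
    apply Subtype.ext
    show α ^ 3 - α ^ 2 - 3 * α + 1 = 0
    exact hα
  obtain ⟨h4, h5⟩ := exr.2 (IntermediateField.adjoin ℚ {α}) a h3 ha3
  obtain ⟨-, h6⟩ := exP (IntermediateField.adjoin ℚ {α}) a h3 ha3
  have h7 := exe (IntermediateField.adjoin ℚ {α}) a h3 ha3
  refine ⟨⟨hnf, ?_, nonS_of Nat.prime_two h6, h7⟩, h0, h4, fun h => h5 ?_⟩
  · rw [h0]
    exact ⟨1, by norm_num⟩
  · exact IsGalois.of_algEquiv (ratE (RingEquiv.refl _))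

end Pool.Agent.N848.LT
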