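import Mathlib
import Pool.Agent.N848.LT.Fin
import Pool.Agent.Y18.LC.Sigma4
import Pool.Agent.Y419.LC.SIG
import Pool.Agent.Y419.LC.LCP

/-!
# Project LT: the Sigma-Leopoldt conjecture at 2
-/

set_option autoImplicit false

namespace Pool.Agent.N848.LT

open NumberField IsDedekindDomain Module Pool.Agent.H637R2.Leo Pool.Agent.Y18.LC
  Pool.Agent.W289.SL

variable {Ω : Type} [Field Ω] [CharZero Ω]

/-- from Leopoldt's conjecture for the real field `F L` to the characters of `K L / K` -/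
theorem sigF_real (F K L : IntermediateField ℚ Ω) (hFK : F ≤ K)
    (hF : FiniteDimensional ℚ F) (hK : FiniteDimensional ℚ K)
    (hFr : IsTotallyReal F) (hKc : IsTotallyComplex K) (h2 : finrank ℚ K = 2 * finrank ℚ F)
    (hL : FiniteDimensional ℚ L) (hLr : IsTotallyReal L)
    {p : ℕ} [Fact p.Prime] (hLeo : LeoF (F ⊔ L) p) : SigF F K L hFK p := by
  obtain ⟨hnE, hLeoE⟩ := hLeo
  have hnH : NumberField ↥(K ⊔ L) := nf_of _ inferInstance
  have hnF : NumberField F := nf_of _ hF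
  have hnK : NumberField K := nf_of _ hK
  have hnL : NumberField L := nf_of _ hL
  have hEr : IsTotallyReal ↥(F ⊔ L) := treal_sup F L hFr hLr
  refine ⟨hnH, ?_⟩
  letI algFK : Algebra F K := (IntermediateField.inclusion hFK).toRingHom.toAlgebra
  letI algKH : Algebra K ↥(K ⊔ L) :=
    (IntermediateField.inclusion (le_sup_left : K ≤ K ⊔ L)).toRingHom.toAlgebra
  letI algFE : Algebra F ↥(F ⊔ L) :=
    (IntermediateField.inclusion (le_sup_left : F ≤ F ⊔ L)).toRingHom.toAlgebra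
  letI algEH : Algebra ↥(F ⊔ L) ↥(K ⊔ L) :=
    (IntermediateField.inclusion (sup_le_sup_right hFK L)).toRingHom.toAlgebra
  have hne : ¬ K ≤ F ⊔ L := not_le_real K (F ⊔ L) hKc hEr
  have hEH : finrank ↥(F ⊔ L) ↥(K ⊔ L) = 2 :=
    finrank_two F K L hFK h2 hne ↥(F ⊔ L) ↥(K ⊔ L) (algebraMap ↥(K ⊔ L) Ω)
      (fun x hx => ⟨⟨x, hx⟩, rfl⟩) (fun y => y.2) (fun x hx => ⟨⟨x, hx⟩, rfl⟩) (fun y => y.2)
  have hFKr : finrank F K = 2 := by
    haveI tow : IsScalarTower ℚ F K := IsScalarTower.of_algebraMap_eq' rfl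
    have hFpos : 0 < finrank ℚ F := finrank_pos
    have h4 := Module.finrank_mul_finrank ℚ F K
    rw [h2] at h4
    have h5 : finrank ℚ F * finrank F K = finrank ℚ F * 2 := by rw [h4, mul_comm]
    exact Nat.eq_of_mul_eq_mul_left hFpos h5
  exact Pool.Agent.Y419.LC.sig p F K ↥(F ⊔ L) ↥(K ⊔ L) hEr hKc hFKr hEH (fun x => rfl)
    (Pool.Agent.Y419.LC.lcp p ↥(F ⊔ L) hLeoE)

/-- subfields of totally real algebraic extensions of `ℚ` -/
lemma treal_sub {A L : IntermediateField ℚ Ω} (h : L ≤ A) (hA : Algebra.IsAlgebraic ℚ A)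
    (hr : IsTotallyReal A) : IsTotallyReal L := by
  letI : Algebra L A := (IntermediateField.inclusion h).toRingHom.toAlgebra
  haveI : IsScalarTower ℚ L A := IsScalarTower.of_algebraMap_eq' rfl
  haveI : Algebra.IsAlgebraic L A := Algebra.IsAlgebraic.tower_top (K := ℚ) L
  exact IsTotallyReal.of_algebra L A

/-- number fields contained in `k A` are totally real -/
lemma treal_le (k A L : IntermediateField ℚ Ω) (hk : FiniteDimensional ℚ k)
    (hkr : IsTotallyReal k) (hA : Algebra.IsAlgebraic ℚ A) (hAr : IsTotallyReal A)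
    (hL : FiniteDimensional ℚ L) (h : L ≤ k ⊔ A) : IsTotallyReal L := by
  obtain ⟨F, hFA, hFf, hLF⟩ := le_sup_finite k A L hA hL h
  have h1 : IsTotallyReal ↥(k ⊔ F) := treal_sup k F hkr (treal_sub hFA hA hAr)
  exact treal_sub hLF inferInstance h1

/-- the Sigma-Leopoldt conjecture at 2 for the number fields in `k A` -/
theorem sig1 (k A : IntermediateField ℚ Ω) (hk : Base k) (hkr : IsTotallyReal k) (hA : Ab2 A)
    (hAr : IsTotallyReal A)
    (hq : ∀ q : ℕ, q.Prime → (Ideal.span {(q : 𝓞 A)}).IsRadical ∨ NonS k q)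
    (F L : IntermediateField ℚ Ω) (hF : F ≤ k ⊔ A) (hL : L ≤ k ⊔ A)
    (hFf : FiniteDimensional ℚ F) (hLf : FiniteDimensional ℚ L) : SigAll F L 2 := by
  have halg : Algebra.IsAlgebraic ℚ A := by
    haveI : Normal ℚ A := hA.1.to_normal
    infer_instance
  have hfk : FiniteDimensional ℚ k := by
    apply FiniteDimensional.of_finrank_pos
    exact hk.choose_spec.1.pos
  intro K hFK hK hKc h2
  exact sigF_real F K L hFK hFf hK (treal_le k A F hfk hkr halg hAr hFf hF) hKc h2 hLf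
    (treal_le k A L hfk hkr halg hAr hLf hL) (fin2 k A hk hA hq _ (sup_le hF hL) inferInstance)

/-- square roots of positive integers generate totally real fields -/
lemma treal_sqrt (T : Set ℤ) (hT : ∀ t ∈ T, 0 < t) :
    IsTotallyReal (IntermediateField.adjoin ℚ {s : Ω | ∃ t ∈ T, s ^ 2 = (t : Ω)}) := by
  set S : Set Ω := {s : Ω | ∃ t ∈ T, s ^ 2 = (t : Ω)} with hS
  constructor
  intro v
  rw [← InfinitePlace.mk_embedding v, InfinitePlace.isReal_mk_iff,
    ComplexEmbedding.isReal_iff]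
  set φ := v.embedding with hφ
  have h1 : ∀ x (hx : x ∈ IntermediateField.adjoin ℚ S),
      (starRingEnd ℂ) (φ ⟨x, hx⟩) = φ ⟨x, hx⟩ := by
    intro x hx
    induction hx using IntermediateField.adjoin_induction with
    | mem x hx =>
      obtain ⟨t, ht, hxt⟩ := hx
      have h2 : φ ⟨x, IntermediateField.subset_adjoin ℚ S ⟨t, ht, hxt⟩⟩ ^ 2 = (t : ℂ) := by
        rw [← map_pow, ← map_intCast φ]
        congr 1
        exact Subtype.ext hxt
      set z := φ ⟨x, IntermediateField.subset_adjoin ℚ S ⟨t, ht, hxt⟩⟩ with hz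
      have h3 : ((Real.sqrt (t : ℝ) : ℝ) : ℂ) ^ 2 = (t : ℂ) := by
        rw [← Complex.ofReal_pow, Real.sq_sqrt (by exact_mod_cast (hT t ht).le)]
        norm_cast
      have h4 : (z - (Real.sqrt (t : ℝ) : ℝ)) * (z + (Real.sqrt (t : ℝ) : ℝ)) = 0 := by
        linear_combination h2 - h3
      rcases mul_eq_zero.1 h4 with h5 | h5
      · rw [sub_eq_zero.1 h5, Complex.conj_ofReal]
      · rw [eq_neg_of_add_eq_zero_left h5, map_neg, Complex.conj_ofReal]
    | algebraMap q =>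
      have h2 : φ ⟨algebraMap ℚ Ω q, IntermediateField.algebraMap_mem _ q⟩ = (q : ℂ) := by
        have h3 : (⟨algebraMap ℚ Ω q, IntermediateField.algebraMap_mem _ q⟩ :
            IntermediateField.adjoin ℚ S) = (q : IntermediateField.adjoin ℚ S) := by
          apply Subtype.ext
          simp
        rw [h3, map_ratCast]
      rw [h2]
      simp
    | add x y hx hy ihx ihy =>
      have h2 : (⟨x + y, add_mem hx hy⟩ : IntermediateField.adjoin ℚ S) = ⟨x, hx⟩ + ⟨y, hy⟩ := rfl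
      rw [h2, map_add, map_add, ihx, ihy]
    | inv x hx ihx =>
      have h2 : (⟨x⁻¹, inv_mem hx⟩ : IntermediateField.adjoin ℚ S) = (⟨x, hx⟩)⁻¹ := rfl
      rw [h2, map_inv₀, map_inv₀, ihx]
    | mul x y hx hy ihx ihy =>
      have h2 : (⟨x * y, mul_mem hx hy⟩ : IntermediateField.adjoin ℚ S) = ⟨x, hx⟩ * ⟨y, hy⟩ := rfl
      rw [h2, map_mul, map_mul, ihx, ihy]
  ext x
  exact h1 x x.2

/-- the explicit version -/
theorem sig2 (hSQT : S_SQT) (k : IntermediateField ℚ Ω) (hk : Base k) (hkr : IsTotallyReal k)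
    (F L : IntermediateField ℚ Ω)
    (hF : F ≤ k ⊔ IntermediateField.adjoin ℚ {s : Ω | ∃ t : ℤ, (0 < t ∧
      ∀ q : ℕ, q.Prime → (q : ℤ) ∣ t → NonS k q) ∧ s ^ 2 = (t : Ω)})
    (hL : L ≤ k ⊔ IntermediateField.adjoin ℚ {s : Ω | ∃ t : ℤ, (0 < t ∧
      ∀ q : ℕ, q.Prime → (q : ℤ) ∣ t → NonS k q) ∧ s ^ 2 = (t : Ω)})
    (hFf : FiniteDimensional ℚ F) (hLf : FiniteDimensional ℚ L) : SigAll F L 2 := by
  set T : Set ℤ := {t : ℤ | 0 < t ∧ ∀ q : ℕ, q.Prime → (q : ℤ) ∣ t → NonS k q} with hT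
  set A := IntermediateField.adjoin ℚ {s : Ω | ∃ t ∈ T, s ^ 2 = (t : Ω)} with hA
  obtain ⟨h1, h2⟩ := hSQT Ω T A hA
  refine sig1 k A hk hkr ⟨h1.1, h1.2.1, fun F hF hFf => EA_finrank (EA_sub hF h1) hFf⟩
    (treal_sqrt T fun t ht => ht.1) ?_ F L hF hL hFf hLf
  intro q hq
  by_cases h : ∀ t ∈ T, ¬ (q : ℤ) ∣ 2 * t
  · exact Or.inl (h2 q hq h)
  · push Not at h
    obtain ⟨t, ht, hqt⟩ := h
    right
    rcases (Nat.prime_iff_prime_int.1 hq).dvd_or_dvd hqt with h3 | h3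
    · have h4 : q = 2 := (Nat.prime_dvd_prime_iff_eq hq Nat.prime_two).1 (by exact_mod_cast h3)
      rw [h4]
      exact hk.choose_spec.2.1
    · exact ht.2 q hq h3

end Pool.Agent.N848.LT
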